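import Pool.Agent.J4H12.IBR.Main

/-! The Euclidean ball is the robust global attractor of the intersection body operator on
origin-symmetric convex bodies, up to linear maps. -/

set_option autoImplicit false

open MeasureTheory Set Filter Topology Metric
open scoped Pointwise

namespace Pool.Agent.Results.MP_5ac201_gt.RobustAttractor

/-- Euclidean `n`-space. -/
abbrev E (n : ℕ) : Type := EuclideanSpace ℝ (Fin n)

/-- The closed unit ball. -/
def unitBall (n : ℕ) : Set (E n) := closedBall 0 1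

/-- Origin-symmetric convex bodies: compact, convex, with nonempty interior and `K = -K`. -/
structure IsSymConvexBody {n : ℕ} (K : Set (E n)) : Prop where
  isCompact : IsCompact K
  convex : Convex ℝ K
  interior_nonempty : (interior K).Nonempty
  neg_mem : ∀ x ∈ K, -x ∈ K

/-- The hyperplane through the origin orthogonal to `u`. -/
noncomputable abbrev hyp {n : ℕ} (u : E n) : Submodule ℝ (E n) := (ℝ ∙ u)ᗮ

/-- Lebesgue measure of the hyperplane `hyp u`. -/
noncomputable abbrev hypVol {n : ℕ} (u : E n) : Measure (hyp u) := volume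

/-- The `(n-1)`-dimensional volume of the section of `K` by the hyperplane through the origin
orthogonal to `u`. -/
noncomputable def secVol {n : ℕ} (K : Set (E n)) (u : E n) : ℝ :=
  (hypVol u {y : hyp u | (y : E n) ∈ K}).toReal

/-- The intersection body `I K`: the star body whose radial function is `secVol K` on unit
vectors. -/
def interBody {n : ℕ} (K : Set (E n)) : Set (E n) :=
  {x | ∃ u : E n, ‖u‖ = 1 ∧ ∃ r : ℝ, 0 ≤ r ∧ r ≤ secVol K u ∧ x = r • u}

/-- The image of a set under an invertible linear map. -/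
def linImage {n : ℕ} (T : E n ≃ₗ[ℝ] E n) (A : Set (E n)) : Set (E n) := T '' A

/-- Centred ellipsoids: images of the closed unit ball under invertible linear maps. -/
def IsCentredEllipsoid {n : ℕ} (K : Set (E n)) : Prop :=
  ∃ T : E n ≃ₗ[ℝ] E n, K = linImage T (unitBall n)

/-- The Banach-Mazur distance: the infimum of the `l ≥ 1` with `B ⊆ T A ⊆ l B` for some
invertible linear map `T`. -/
noncomputable def bmDist {n : ℕ} (A B : Set (E n)) : ℝ :=
  sInf {l : ℝ | 1 ≤ l ∧ ∃ T : E n ≃ₗ[ℝ] E n, B ⊆ linImage T A ∧ linImage T A ⊆ l • B}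

/-- `K 0, ..., K m` is a `δ`-chain of the operator `I`: the `K j`, `j ≤ m`, are origin-symmetric
convex bodies and `K (j + 1)` is at distance at most `1 + δ` of `I (K j)` for all `j < m`. -/
structure IsChain {n : ℕ} (δ : ℝ) (m : ℕ) (K : ℕ → Set (E n)) : Prop where
  body : ∀ j, j ≤ m → IsSymConvexBody (K j)
  step : ∀ j, j < m → bmDist (K (j + 1)) (interBody (K j)) ≤ 1 + δ

/-- `K` is chain recurrent for the operator `I`: for every `δ > 0` there is a `δ`-chain of positive
length from `K` to `K`. -/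
def IsChainRecurrent {n : ℕ} (K : Set (E n)) : Prop :=
  ∀ δ : ℝ, 0 < δ → ∃ (m : ℕ) (L : ℕ → Set (E n)), 1 ≤ m ∧ IsChain δ m L ∧ L 0 = K ∧ L m = K

theorem body_iff {n : ℕ} (K : Set (E n)) : IsSymConvexBody K ↔ Pool.Agent.H638.IB.Body K :=
  ⟨fun h => ⟨h.1, h.2, h.3, h.4⟩, fun h => ⟨h.1, h.2, h.3, h.4⟩⟩

theorem ib_eq {n : ℕ} (K : Set (E n)) : Pool.Agent.H638.IB.IB K = interBody K := rfl

theorem bm_eq {n : ℕ} (A B : Set (E n)) : Pool.Agent.H638.IB.bm A B = bmDist A B := rfl

/-- Let `n ≥ 3`. Write `B` for the unit ball, `I` for the intersection body operator and `d` for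
the Banach-Mazur distance; bodies are origin-symmetric convex bodies.

(1) For every body `K` all iterates `I^m K` are bodies and `d (I^m K) B → 1`.

(2) More generally `d (K m) B → 1` for every sequence of bodies with `d (K (m + 1)) (I (K m)) → 1`.

(3) For every `ε > 0` there are `δ > 0` and `M` such that `1 ≤ d (K m) B ≤ 1 + ε` for all
`δ`-chains `K 0, ..., K m` of length `m ≥ M`.

(4) For every `ε > 0` there is `δ > 0` such that `1 ≤ d (K m) B ≤ 1 + ε` for all `δ`-chains
`K 0, ..., K m` of any length that start at a body `K 0` with `d (K 0) B ≤ 1 + δ`.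

(5) A body is chain recurrent for `I` if and only if it is a centred ellipsoid. -/
theorem result {n : ℕ} (hn : 3 ≤ n) :
    (∀ K : Set (E n), IsSymConvexBody K → (∀ m : ℕ, IsSymConvexBody (interBody^[m] K)) ∧
      Tendsto (fun m => bmDist (interBody^[m] K) (unitBall n)) atTop (𝓝 1)) ∧
    (∀ K : ℕ → Set (E n), (∀ m, IsSymConvexBody (K m)) →
      Tendsto (fun m => bmDist (K (m + 1)) (interBody (K m))) atTop (𝓝 1) →
      Tendsto (fun m => bmDist (K m) (unitBall n)) atTop (𝓝 1)) ∧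
    (∀ ε : ℝ, 0 < ε → ∃ (δ : ℝ) (M : ℕ), 0 < δ ∧ ∀ (m : ℕ) (K : ℕ → Set (E n)), M ≤ m →
      IsChain δ m K → 1 ≤ bmDist (K m) (unitBall n) ∧ bmDist (K m) (unitBall n) ≤ 1 + ε) ∧
    (∀ ε : ℝ, 0 < ε → ∃ δ : ℝ, 0 < δ ∧ ∀ (m : ℕ) (K : ℕ → Set (E n)), IsChain δ m K →
      bmDist (K 0) (unitBall n) ≤ 1 + δ →
      1 ≤ bmDist (K m) (unitBall n) ∧ bmDist (K m) (unitBall n) ≤ 1 + ε) ∧
    (∀ K : Set (E n), IsSymConvexBody K → (IsChainRecurrent K ↔ IsCentredEllipsoid K)) := by
  refine ⟨fun K hK => ⟨fun m => ?_, ?_⟩, fun K hK h => ?_, fun ε hε => ?_, fun ε hε => ?_,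
    fun K hK => ⟨fun h => ?_, ?_⟩⟩
  · exact (body_iff _).2 (Pool.Agent.H638.IB.iter_body Pool.Agent.H638.IB.IBB_final hn K
      ((body_iff K).1 hK) m)
  · exact Pool.Agent.H638.IB.main_tendsto Pool.Agent.H638.IB.UNI_final hn K ((body_iff K).1 hK)
  · exact Pool.Agent.J4H12.IBR.asymptotic hn K (fun m => (body_iff _).1 (hK m)) h
  · obtain ⟨δ, M, hδ, h⟩ := Pool.Agent.J4H12.IBR.robust hn hε
    refine ⟨δ, M, hδ, fun m K hm hK => ?_⟩
    have h1 := h K m (fun j hj => (body_iff _).1 (hK.body j hj)) hm hK.step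
    exact ⟨Pool.Agent.J4H12.IBR.one_le_bm (by linarith) h1,
      Pool.Agent.J4H12.IBR.bm_le (by linarith) h1⟩
  · obtain ⟨δ, hδ, h⟩ := Pool.Agent.J4H12.IBR.stable hn hε
    refine ⟨δ, hδ, fun m K hK h0 => ?_⟩
    have h1 := h K m (fun j hj => (body_iff _).1 (hK.body j hj)) h0 hK.step
    exact ⟨Pool.Agent.J4H12.IBR.one_le_bm (by linarith) h1,
      Pool.Agent.J4H12.IBR.bm_le (by linarith) h1⟩
  · refine Pool.Agent.J4H12.IBR.chain hn K ((body_iff K).1 hK) fun δ hδ => ?_
    obtain ⟨m, L, hm, hL, h0, h1⟩ := h δ hδ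
    exact ⟨m, L, hm, fun j hj => (body_iff _).1 (hL.body j hj), h0, h1, hL.step⟩
  · rintro ⟨T, rfl⟩ δ hδ
    refine ⟨1, fun _ => linImage T (unitBall n), le_rfl, ⟨fun _ _ => hK, fun _ _ => ?_⟩, rfl, rfl⟩
    exact (Pool.Agent.J4H12.IBR.ell_chain hn T).trans (by linarith)

end Pool.Agent.Results.MP_5ac201_gt.RobustAttractor
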